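import Pool.Agent.Helper91.MC9.Spec

set_option autoImplicit false

namespace Pool.Agent.Helper61.MC9.PAIR

open Pool.Agent.Helper91.MC9 SimpleGraph

/-- a copy of a component is connected -/
theorem conn {V : Type} (G : SimpleGraph V) (m : ℕ) (G' : SimpleGraph (Fin m × V))
    (hle : copies m G ≤ G') (k : Fin m) (C : G.ConnectedComponent) :
    (G'.induce {q : Fin m × V | q.1 = k ∧ G.connectedComponentMk q.2 = C}).Connected := by
  have h0 := C.connected_toSimpleGraph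
  let f : C.toSimpleGraph →g
      G'.induce {q : Fin m × V | q.1 = k ∧ G.connectedComponentMk q.2 = C} :=
    { toFun := fun x => ⟨(k, x.1), rfl, x.2⟩
      map_rel' := by
        intro a b hab
        exact hle ⟨rfl, hab⟩ }
  refine h0.map f ?_
  rintro ⟨⟨a, b⟩, h1, h2⟩
  refine ⟨⟨b, h2⟩, ?_⟩
  subst h1
  rfl

theorem main (hNBR : S_NBR) (hCLQ : S_CLQ) : S_PAIR := by
  intro ℋ hne
  obtain ⟨h, hh⟩ := hCLQ ℋ hne
  refine ⟨h * h, ?_⟩
  intro V _ G m G' hmax hfree hle i j hij C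
  have c1 : G.IsClique {x : V | G.connectedComponentMk x = C ∧
      ∃ y, G.connectedComponentMk y = C ∧ G'.Adj (i, x) (j, y)} := by
    rintro x ⟨-, y, hy, hxy⟩ x' ⟨-, y', hy', hxy'⟩ hne'
    refine hNBR ℋ V (Fin m × V) G G' hmax hfree (fun v => (i, v)) ?_ ?_ _
      (conn G m G' hle j C) ?_ x x' hne' ⟨(j, y), ⟨rfl, hy⟩, hxy⟩ ⟨(j, y'), ⟨rfl, hy'⟩, hxy'⟩
    · intro a b hab
      exact (Prod.mk.inj hab).2
    · intro a b hab
      exact hle ⟨rfl, hab⟩
    · rintro a ⟨h1, -⟩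
      exact hij h1
  have c2 : G.IsClique {y : V | G.connectedComponentMk y = C ∧
      ∃ x, G.connectedComponentMk x = C ∧ G'.Adj (i, x) (j, y)} := by
    rintro x ⟨-, y, hy, hxy⟩ x' ⟨-, y', hy', hxy'⟩ hne'
    refine hNBR ℋ V (Fin m × V) G G' hmax hfree (fun v => (j, v)) ?_ ?_ _
      (conn G m G' hle i C) ?_ x x' hne' ⟨(i, y), ⟨rfl, hy⟩, hxy.symm⟩
      ⟨(i, y'), ⟨rfl, hy'⟩, hxy'.symm⟩
    · intro a b hab
      exact (Prod.mk.inj hab).2
    · intro a b hab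
      exact hle ⟨rfl, hab⟩
    · rintro a ⟨h1, -⟩
      exact hij h1.symm
  have hsub : {p : V × V | G.connectedComponentMk p.1 = C ∧ G.connectedComponentMk p.2 = C ∧
      G'.Adj (i, p.1) (j, p.2)} ⊆
      {x : V | G.connectedComponentMk x = C ∧
        ∃ y, G.connectedComponentMk y = C ∧ G'.Adj (i, x) (j, y)} ×ˢ
      {y : V | G.connectedComponentMk y = C ∧
        ∃ x, G.connectedComponentMk x = C ∧ G'.Adj (i, x) (j, y)} := by
    rintro ⟨x, y⟩ ⟨h1, h2, h3⟩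
    exact ⟨⟨h1, y, h2, h3⟩, ⟨h2, x, h1, h3⟩⟩
  refine (Set.ncard_le_ncard hsub (Set.toFinite _)).trans ?_
  rw [Set.ncard_prod]
  exact Nat.mul_le_mul (hh V G hmax.1 _ c1) (hh V G hmax.1 _ c2)

end Pool.Agent.Helper61.MC9.PAIR
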